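import Pool.Agent.Y773.NV.St2
import Pool.Agent.Y773.IQ.Fam

/-! # Characters of residue classes trivial on a set -/

set_option autoImplicit false

open NumberField

namespace Pool.Agent.Y48.NV

open Pool.Agent.Y773.IQ
open Pool.Agent.Y767 (Mq Mq_cop Mq_ne_bot isUnit_mk coprime_of_isUnit card_dual finite_dual)

theorem t_rst : Pool.Agent.Y773.NV.St_RST := by
  intro K _ _ _ 𝔣 S T hbot htop hS hT
  classical
  have hfin : Finite (𝓞 K ⧸ 𝔣) := Ideal.finiteQuotientOfFreeOfNeBot 𝔣 hbot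
  have htp : ∀ x : 𝓞 K, Pool.Agent.Y773.TPos K x := fun x => tpos_all x
  choose x hx using fun g : (𝓞 K ⧸ 𝔣)ˣ => Ideal.Quotient.mk_surjective (g : 𝓞 K ⧸ 𝔣)
  have hc : ∀ g, IsCoprime (Ideal.span {x g}) 𝔣 := fun g => coprime_of_isUnit (by
    rw [hx]; exact g.isUnit)
  -- the values
  set ρ : (Ideal (𝓞 K) →*₀ ℂ) → ((𝓞 K ⧸ 𝔣)ˣ → ℂ) := fun ψ g => ψ (Ideal.span {x g}) with hρ
  have hval : ∀ ψ ∈ S, ∀ (z : 𝓞 K) (g : (𝓞 K ⧸ 𝔣)ˣ), Ideal.Quotient.mk 𝔣 z = g →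
      ψ (Ideal.span {z}) = ρ ψ g := by
    intro ψ hψ z g hz
    exact prim_congr htp (hS ψ hψ) htop (by rw [← Ideal.Quotient.eq, hz, hx]) (hc g)
  have hmul : ∀ ψ ∈ S, ∀ g g', ρ ψ (g * g') = ρ ψ g * ρ ψ g' := by
    intro ψ hψ g g'
    rw [← hval ψ hψ (x g * x g') (g * g') (by rw [map_mul, hx, hx, Units.val_mul]),
      ← Ideal.span_singleton_mul_span_singleton, map_mul]
  have hone : ∀ ψ ∈ S, ρ ψ 1 = 1 := by
    intro ψ hψ
    rw [← hval ψ hψ 1 1 (by rw [map_one, Units.val_one]), Ideal.span_singleton_one,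
      ← Ideal.one_eq_top, map_one]
  have hne : ∀ ψ ∈ S, ∀ g, ρ ψ g ≠ 0 := by
    intro ψ hψ g h0
    have := hmul ψ hψ g g⁻¹
    rw [mul_inv_cancel, hone ψ hψ, h0, zero_mul] at this
    exact one_ne_zero this
  set H : Subgroup (𝓞 K ⧸ 𝔣)ˣ := Subgroup.closure (T : Set (𝓞 K ⧸ 𝔣)ˣ) with hH
  -- the image
  set Φ : ((𝓞 K ⧸ 𝔣)ˣ ⧸ H →* ℂˣ) → ((𝓞 K ⧸ 𝔣)ˣ → ℂ) :=
    fun lam g => ((lam (QuotientGroup.mk g) : ℂˣ) : ℂ) with hΦ
  have him : ∀ ψ ∈ S, ∃ lam, Φ lam = ρ ψ := by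
    intro ψ hψ
    let χ : (𝓞 K ⧸ 𝔣)ˣ →* ℂˣ :=
      { toFun := fun g => Units.mk0 (ρ ψ g) (hne ψ hψ g)
        map_one' := Units.ext (hone ψ hψ)
        map_mul' := fun g g' => Units.ext (hmul ψ hψ g g') }
    have hχ : H ≤ χ.ker := by
      rw [hH, Subgroup.closure_le]
      intro g hg
      rw [SetLike.mem_coe, MonoidHom.mem_ker]
      apply Units.ext
      exact hT ψ hψ g (Finset.mem_coe.1 hg) (x g) (hx g)
    exact ⟨QuotientGroup.lift H χ (fun g hg => hχ hg), rfl⟩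
  have hfd := finite_dual ((𝓞 K ⧸ 𝔣)ˣ ⧸ H)
  have himc : (S.image ρ).card ≤ Nat.card ((𝓞 K ⧸ 𝔣)ˣ ⧸ H) := by
    rw [← card_dual, ← Set.ncard_univ]
    have h1 : ((S.image ρ : Finset ((𝓞 K ⧸ 𝔣)ˣ → ℂ)) : Set ((𝓞 K ⧸ 𝔣)ˣ → ℂ)) ⊆ Φ '' Set.univ := by
      intro f hf
      obtain ⟨ψ, hψ, rfl⟩ := Finset.mem_image.1 (Finset.mem_coe.1 hf)
      obtain ⟨lam, hlam⟩ := him ψ hψ
      exact ⟨lam, Set.mem_univ _, hlam⟩
    rw [← Set.ncard_coe_finset]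
    exact (Set.ncard_le_ncard h1 (Set.finite_univ.image _)).trans (Set.ncard_image_le Set.finite_univ)
  have hTc : T.card ≤ Nat.card H := by
    rw [← Set.ncard_coe_finset, ← Nat.card_coe_set_eq]
    exact Nat.card_le_card_of_injective (Set.inclusion (Subgroup.subset_closure))
      (Set.inclusion_injective _)
  have hprod : (S.image ρ).card * T.card ≤ Nat.card (𝓞 K ⧸ 𝔣)ˣ := by
    rw [Subgroup.card_eq_card_quotient_mul_card_subgroup H]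
    exact Nat.mul_le_mul himc hTc
  -- the fibres
  have hFam : ∀ ψ ∈ S, ψ ∈ Fam 𝔣 := fun ψ hψ => ⟨𝔣, dvd_refl _, htop, hS ψ hψ⟩
  have hD0f : (D0 𝔣).Finite := (D1_card hbot htop).1.subset (D0_sub htop)
  have hfib : S.card ≤ Nat.card (ClassGroup (𝓞 K)) * (S.image ρ).card := by
    refine Finset.card_le_mul_card_image (f := ρ) S (Nat.card (ClassGroup (𝓞 K))) fun f hf => ?_
    obtain ⟨ψ₀, hψ₀, rfl⟩ := Finset.mem_image.1 hf
    refine le_trans ?_ (D0_card htop htp)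
    rw [← Set.ncard_coe_finset]
    refine Set.ncard_le_ncard_of_injOn (fun ψ => tM 𝔣 ψ / tM 𝔣 ψ₀) ?_ ?_ hD0f
    · intro ψ hψ
      obtain ⟨h1, h2⟩ := Finset.mem_filter.1 (Finset.mem_coe.1 hψ)
      intro z hz
      rw [MonoidHom.div_apply, div_eq_one]
      apply Units.ext
      rw [tM_coe htop (hFam ψ h1), tM_coe htop (hFam ψ₀ hψ₀)]
      change ψ (Ideal.span {z}) = ψ₀ (Ideal.span {z})
      rw [hval ψ h1 z (isUnit_mk hz).unit rfl, hval ψ₀ hψ₀ z (isUnit_mk hz).unit rfl, h2]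
    · intro ψ hψ ψ' hψ' h
      obtain ⟨h1, -⟩ := Finset.mem_filter.1 (Finset.mem_coe.1 hψ)
      obtain ⟨h1', -⟩ := Finset.mem_filter.1 (Finset.mem_coe.1 hψ')
      exact tM_inj hbot htop htp (hFam ψ h1) (hFam ψ' h1') (div_left_injective h)
  calc S.card * T.card ≤ Nat.card (ClassGroup (𝓞 K)) * (S.image ρ).card * T.card :=
        Nat.mul_le_mul_right _ hfib
    _ = Nat.card (ClassGroup (𝓞 K)) * ((S.image ρ).card * T.card) := by ring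
    _ ≤ _ := Nat.mul_le_mul_left _ hprod

end Pool.Agent.Y48.NV
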