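import Pool.Agent.Y63.NV.Stm

/-!
# From the blockwise statement to the single element statement
-/

set_option autoImplicit false

open scoped Classical

noncomputable section

namespace Pool.Agent.Y48.NVB

open Pool.Agent.Y63.AWC (IsIrreducibleCharacter pSubgroupSetoid)
open Pool.Agent.Y63.NV

/-- sums over orbits as weighted sums over points (after helper63) -/
theorem orbit_sum {G Ω : Type} [Group G] [Finite G] [Fintype Ω] [MulAction G Ω] (s : Setoid Ω)
    (hs : ∀ a b, s.r a b ↔ ∃ g : G, g • a = b) (f : Ω → ℕ) (hf : ∀ a b, s.r a b → f a = f b) :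
    Nat.card G * ∑ᶠ c : Quotient s, f c.out =
      ∑ ω : Ω, Nat.card (MulAction.stabilizer G ω) * f ω := by
  have : Fintype G := Fintype.ofFinite G
  rw [finsum_eq_sum_of_fintype, Finset.mul_sum]
  have h1 : ∑ ω : Ω, Nat.card (MulAction.stabilizer G ω) * f ω = ∑ c : Quotient s,
      ∑ ω ∈ Finset.univ.filter (fun ω : Ω => Quotient.mk s ω = c),
        Nat.card (MulAction.stabilizer G ω) * f ω :=
    (Finset.sum_fiberwise Finset.univ (fun ω : Ω => Quotient.mk s ω) _).symm
  rw [h1]
  refine Finset.sum_congr rfl fun c _ => ?_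
  have horb : ∀ ω : Ω, Quotient.mk s ω = c →
      (Finset.univ.filter (fun ω : Ω => Quotient.mk s ω = c)).card *
        Nat.card (MulAction.stabilizer G ω) = Nat.card G := by
    intro ω hω
    have h2 := MulAction.card_orbit_mul_card_stabilizer_eq_card_group G ω
    have h3 : (Finset.univ.filter (fun ω : Ω => Quotient.mk s ω = c)).card =
        Fintype.card (MulAction.orbit G ω) := by
      rw [← Fintype.card_subtype]
      refine Fintype.card_congr (Equiv.subtypeEquivRight fun a => ?_)
      rw [MulAction.mem_orbit_iff, ← hs, ← hω, eq_comm]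
      exact Quotient.eq (r := s)
    rw [h3, Nat.card_eq_fintype_card, Nat.card_eq_fintype_card]
    exact h2
  have hout : Quotient.mk s c.out = c := Quotient.out_eq c
  have h0 := horb c.out hout
  have hpos : 0 < (Finset.univ.filter (fun ω : Ω => Quotient.mk s ω = c)).card := by
    rw [Finset.card_pos]
    exact ⟨c.out, by simp⟩
  have h4 : ∀ ω ∈ Finset.univ.filter (fun ω : Ω => Quotient.mk s ω = c),
      Nat.card (MulAction.stabilizer G ω) * f ω =
        Nat.card (MulAction.stabilizer G c.out) * f c.out := by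
    intro ω hω
    have hω' : Quotient.mk s ω = c := (Finset.mem_filter.mp hω).2
    have h5 := horb ω hω'
    have h6 : Nat.card (MulAction.stabilizer G ω) = Nat.card (MulAction.stabilizer G c.out) :=
      Nat.eq_of_mul_eq_mul_left hpos (h5.trans h0.symm)
    have h7 : f ω = f c.out := by
      apply hf
      have : Quotient.mk s ω = Quotient.mk s c.out := hω'.trans hout.symm
      exact Quotient.eq.mp this
    rw [h6, h7]
  rw [Finset.sum_congr rfl h4, Finset.sum_const, smul_eq_mul, ← mul_assoc, h0]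

/-- counting by the values of a map -/
theorem card_fib {X R : Type} [Finite X] (r : X → R) (S : Finset R) (hS : ∀ x, r x ∈ S)
    (P : R → Prop) : Nat.card {x // P (r x)} =
      ∑ β ∈ S, if P β then Nat.card {x // r x = β} else 0 := by
  have : Fintype X := Fintype.ofFinite X
  rw [Nat.card_eq_fintype_card, Fintype.card_subtype,
    Finset.card_eq_sum_card_fiberwise (f := r) (t := S) (fun x _ => hS x)]
  refine Finset.sum_congr rfl fun β _ => ?_
  by_cases h : P β
  · rw [if_pos h, Nat.card_eq_fintype_card, Fintype.card_subtype]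
    congr 1
    ext x
    simp only [Finset.mem_filter, Finset.mem_univ, true_and]
    constructor
    · exact fun h' => h'.2
    · rintro rfl
      exact ⟨h, rfl⟩
  · rw [if_neg h, Finset.card_eq_zero, Finset.filter_eq_empty_iff]
    rintro x hx rfl
    exact h (Finset.mem_filter.1 hx).2

section

variable {G F : Type} [Group G] [Field F]

/-- the class functions -/
def CF (T : Type) (F : Type) [Group T] [Field F] : Type := {f : T → F // IsClassFun f}

/-- a functional, restricted to the class functions -/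
def rs {T : Type} [Group T] (B : (T → F) → F) : CF T F → F := fun f => B f.1

/-- functions on the whole group -/
def sh (f : (⊤ : Subgroup G) → F) : G → F := fun x => f ⟨x, Subgroup.mem_top x⟩

theorem sh_class {f : (⊤ : Subgroup G) → F} (hf : IsClassFun f) : IsClassFun (sh f) :=
  fun g x => hf ⟨g, Subgroup.mem_top g⟩ ⟨x, Subgroup.mem_top x⟩

theorem un_class {z : G → F} (hz : IsClassFun z) :
    IsClassFun (fun x : (⊤ : Subgroup G) => z x) := fun g x => hz g x

theorem sh_inZ {f : (⊤ : Subgroup G) → F} (hf : IsClassFun f) : InZ (⊤ : Subgroup G) (sh f) :=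
  ⟨sh_class hf, fun x hx => absurd (Subgroup.mem_top x) hx⟩

/-- transport of blocks from `G` to `⊤` -/
theorem block_top {b : (G → F) → F} (hb : IsBlock b) :
    IsBlock (fun f : (⊤ : Subgroup G) → F => b (sh f)) where
  add f g hf hg := hb.add (sh f) (sh g) (sh_class hf) (sh_class hg)
  smul a f hf := hb.smul a (sh f) (sh_class hf)
  one := by
    have h : ∀ i : DecidableEq (⊤ : Subgroup G),
        sh (@Pi.single (⊤ : Subgroup G) (fun _ => F) _ i 1 1) = Pi.single (1 : G) (1 : F) := by
      intro i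
      funext x
      unfold sh
      by_cases hx : x = 1
      · subst hx
        rw [Pi.single_eq_same]
        exact Pi.single_eq_same _ _
      · rw [Pi.single_eq_of_ne hx]
        exact Pi.single_eq_of_ne (fun h => hx (congrArg Subtype.val h)) _
    exact (congrArg b (h _)).trans hb.one
  mul f g hf hg := by
    have h : sh (conv f g) = conv (sh f) (sh g) := by
      funext x
      unfold sh conv
      exact (finsum_comp_equiv (Subgroup.topEquiv (G := G)).toEquiv
        (f := fun y : G => f ⟨y, Subgroup.mem_top y⟩ *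
          g ⟨y⁻¹ * x, Subgroup.mem_top (y⁻¹ * x)⟩))
    change b (sh (conv f g)) = _
    rw [h]
    exact hb.mul (sh f) (sh g) (sh_class hf) (sh_class hg)

/-- all blocks of `⊤` are invariant -/
theorem inv_top (B : ((⊤ : Subgroup G) → F) → F) : IsInvBlock (⊤ : Subgroup G) B := by
  intro g f f' hf h
  have : f' = f := by
    funext y
    have h1 := h ⟨g⁻¹ * y * g, Subgroup.mem_top _⟩ y (by
      change (y : G) = g * (g⁻¹ * y * g) * g⁻¹
      group)
    rw [h1]
    have h2 := hf ⟨g⁻¹, Subgroup.mem_top _⟩ y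
    refine Eq.trans (congrArg f (Subtype.ext ?_)) h2
    change g⁻¹ * (y : G) * g = g⁻¹ * y * (g⁻¹)⁻¹
    rw [inv_inv]
  rw [this]

/-- invariance of the number of weights under conjugation -/
theorem nw_conj (hN : S_NWC) (p : ℕ) (red : integralClosure ℤ ℂ →+* F) [Finite G] {z : G → F}
    (hz : IsClassFun z) (c : F) (g : G) (Q : Subgroup G) :
    Nw p red (Q.subgroupOf (Subgroup.normalizer (Q : Set G))) (fun x => z x) c =
      Nw p red ((Q.map (MulAut.conj g).toMonoidHom).subgroupOf
        (Subgroup.normalizer ((Q.map (MulAut.conj g).toMonoidHom : Subgroup G) : Set G)))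
        (fun x => z x) c := by
  have hnm : (Subgroup.normalizer (Q : Set G)).map (MulAut.conj g).toMonoidHom =
      Subgroup.normalizer ((Q.map (MulAut.conj g).toMonoidHom : Subgroup G) : Set G) := by
    ext x
    have hmem : ∀ w : G, w ∈ Q.map (MulAut.conj g).toMonoidHom ↔ g⁻¹ * w * g ∈ Q := by
      intro w
      constructor
      · rintro ⟨y, hy, rfl⟩
        have : g⁻¹ * (MulAut.conj g).toMonoidHom y * g = y := by
          change g⁻¹ * (g * y * g⁻¹) * g = y
          group
        rw [this]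
        exact hy
      · intro h
        refine ⟨_, h, ?_⟩
        change g * (g⁻¹ * w * g) * g⁻¹ = w
        group
    rw [Subgroup.mem_normalizer_iff]
    constructor
    · rintro ⟨y, hy, rfl⟩ h
      have hy' : y ∈ Subgroup.normalizer (Q : Set G) := hy
      rw [Subgroup.mem_normalizer_iff] at hy'
      rw [hmem, hmem]
      have e : g⁻¹ * ((MulAut.conj g).toMonoidHom y * h * ((MulAut.conj g).toMonoidHom y)⁻¹) * g =
          y * (g⁻¹ * h * g) * y⁻¹ := by
        change g⁻¹ * ((g * y * g⁻¹) * h * (g * y * g⁻¹)⁻¹) * g = _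
        group
      rw [e]
      exact hy' _
    · intro hx
      refine ⟨g⁻¹ * x * g, ?_, ?_⟩
      · rw [SetLike.mem_coe, Subgroup.mem_normalizer_iff]
        intro h
        have h1 := hx (g * h * g⁻¹)
        rw [hmem, hmem] at h1
        have e1 : g⁻¹ * (g * h * g⁻¹) * g = h := by group
        have e2 : g⁻¹ * (x * (g * h * g⁻¹) * x⁻¹) * g = g⁻¹ * x * g * h * (g⁻¹ * x * g)⁻¹ := by
          group
        rw [e1, e2] at h1
        exact h1
      · change g * (g⁻¹ * x * g) * g⁻¹ = x
        group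
  let e1 : Subgroup.normalizer (Q : Set G) ≃*
      Subgroup.normalizer ((Q.map (MulAut.conj g).toMonoidHom : Subgroup G) : Set G) :=
    ((MulAut.conj g).subgroupMap (Subgroup.normalizer (Q : Set G))).trans
      (MulEquiv.subgroupCongr hnm)
  have h1 : (Q.subgroupOf (Subgroup.normalizer (Q : Set G))).map e1.toMonoidHom =
      (Q.map (MulAut.conj g).toMonoidHom).subgroupOf
        (Subgroup.normalizer ((Q.map (MulAut.conj g).toMonoidHom : Subgroup G) : Set G)) := by
    ext x
    constructor
    · rintro ⟨y, hy, rfl⟩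
      rw [Subgroup.mem_subgroupOf]
      exact ⟨y, hy, rfl⟩
    · intro hx
      rw [Subgroup.mem_subgroupOf] at hx
      obtain ⟨q, hq, hqe⟩ := hx
      refine ⟨⟨q, Subgroup.le_normalizer hq⟩, hq, ?_⟩
      apply Subtype.ext
      exact hqe
  have h2 := hN p F red _ _ e1 (Q.subgroupOf (Subgroup.normalizer (Q : Set G))) (fun x => z x) c
  rw [h1] at h2
  rw [← h2]
  congr 1
  funext x
  exact (hz g x).symm

end

theorem base (h0 : S_IRR) (hN : S_NWC) (h1 : S_SCHUR) (h2 : S_WBLK) : S_BASE := by
  intro p hp F _ _ _ red G _ _ hNav z hz c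
  have : Fintype G := Fintype.ofFinite G
  -- the irreducible traces
  let X : Type := {φ : (⊤ : Subgroup G) → F // IsIrrTrace φ ∧ IsInvUnder ⊤ φ}
  have hX : Finite X := ((h0 F (⊤ : Subgroup G)).1.subset (fun φ h => h.1)).to_subtype
  have hBX : ∀ φ : X, (∃ x, φ.1 x ≠ 0) ∧ ∃ B : ((⊤ : Subgroup G) → F) → F, IsBlock B ∧
      ∀ f : (⊤ : Subgroup G) → F, IsClassFun f → ∀ x, ∑ᶠ g, f g * φ.1 (g * x) = B f * φ.1 x :=
    fun φ => h1 F (⊤ : Subgroup G) φ.1 φ.2.1
  choose hne BX hBX1 hBX2 using hBX
  -- the weights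
  let P : Type := {Q : Subgroup G // IsPGroup p Q}
  have hP : Finite P := inferInstanceAs (Finite {Q : Subgroup G // IsPGroup p Q})
  have : Fintype P := Fintype.ofFinite P
  let Y : P → Type := fun Q => {χ : Subgroup.normalizer (Q.1 : Set G) → ℂ //
    IsWt p (Q.1.subgroupOf (Subgroup.normalizer (Q.1 : Set G))) χ}
  have hY : ∀ Q, Finite (Y Q) := fun Q =>
    ((h0 ℂ (Subgroup.normalizer (Q.1 : Set G))).1.subset (fun χ h => h.irr)).to_subtype
  let BY : ∀ Q : P, Y Q → ((⊤ : Subgroup G) → F) → F := fun Q χ f =>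
    centralValue red χ.1 (fun x => sh f x)
  have hBY : ∀ Q χ, IsBlock (BY Q χ) := fun Q χ =>
    block_top (h2 p F red G Q.1 χ.1 Q.2 χ.2)
  have hfX : Fintype X := Fintype.ofFinite X
  have hfY : ∀ Q, Fintype (Y Q) := fun Q => Fintype.ofFinite (Y Q)
  let rX : X → (CF (⊤ : Subgroup G) F → F) := fun φ => rs (BX φ)
  let rY : ∀ Q, Y Q → (CF (⊤ : Subgroup G) F → F) := fun Q χ => rs (BY Q χ)
  let S : Finset (CF (⊤ : Subgroup G) F → F) := Finset.univ.image rX ∪
    (Finset.univ : Finset P).biUnion (fun Q => Finset.univ.image (rY Q))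
  have hSX : ∀ φ, rX φ ∈ S := fun φ =>
    Finset.mem_union_left _ (Finset.mem_image_of_mem _ (Finset.mem_univ _))
  have hSY : ∀ Q χ, rY Q χ ∈ S := fun Q χ =>
    Finset.mem_union_right _ (Finset.mem_biUnion.2 ⟨Q, Finset.mem_univ _,
      Finset.mem_image_of_mem _ (Finset.mem_univ _)⟩)
  have hS : ∀ β ∈ S, ∃ B : ((⊤ : Subgroup G) → F) → F, IsBlock B ∧ rs B = β := by
    intro β hβ
    rcases Finset.mem_union.1 hβ with h | h
    · obtain ⟨φ, -, rfl⟩ := Finset.mem_image.1 h
      exact ⟨BX φ, hBX1 φ, rfl⟩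
    · obtain ⟨Q, -, h⟩ := Finset.mem_biUnion.1 h
      obtain ⟨χ, -, rfl⟩ := Finset.mem_image.1 h
      exact ⟨BY Q χ, hBY Q χ, rfl⟩
  -- Navarro's equality for a block
  have key : ∀ β ∈ S, Nat.card {φ : X // rX φ = β} =
      ∑ᶠ d : Quotient (pSubgroupSetoid p G), Nat.card {χ : Y d.out // rY d.out χ = β} := by
    intro β hβ
    obtain ⟨B, hB, rfl⟩ := hS β hβ
    have h3 := hNav B hB (inv_top B)
    have e1 : numIBr (⊤ : Subgroup G) B = Nat.card {φ : X // rX φ = rs B} := by
      unfold numIBr
      refine Nat.card_congr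
        { toFun := fun φ => ⟨⟨φ.1, φ.2.1, φ.2.2.1⟩, ?_⟩
          invFun := fun φ => ⟨φ.1.1, φ.1.2.1, φ.1.2.2, ?_⟩
          left_inv := fun φ => rfl
          right_inv := fun φ => rfl }
      · funext f
        obtain ⟨x, hx⟩ := hne ⟨φ.1, φ.2.1, φ.2.2.1⟩
        have h4 := hBX2 ⟨φ.1, φ.2.1, φ.2.2.1⟩ f.1 f.2 x
        have h5 := φ.2.2.2 f.1 f.2 x
        exact mul_right_cancel₀ hx (h4.symm.trans h5)
      · intro f hf x
        have h4 := hBX2 φ.1 f hf x
        have h5 : BX φ.1 f = B f := congrFun φ.2 ⟨f, hf⟩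
        rw [← h5]
        exact h4
    have e2 : ∀ Q : P, numDz p red (⊤ : Subgroup G) Q.1 B = Nat.card {χ : Y Q // rY Q χ = rs B} := by
      intro Q
      unfold numDz
      refine Nat.card_congr
        { toFun := fun χ => ⟨⟨χ.1, χ.2.1⟩, ?_⟩
          invFun := fun χ => ⟨χ.1.1, χ.1.2, ?_⟩
          left_inv := fun χ => rfl
          right_inv := fun χ => rfl }
      · funext f
        exact χ.2.2 (sh f.1) (sh_inZ f.2)
      · intro w hw
        exact congrFun χ.2 ⟨fun x : (⊤ : Subgroup G) => w x, un_class hw.conj⟩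
    rw [← e1, h3]
    refine finsum_congr fun d => ?_
    rw [if_pos (top_sup_eq _), e2 d.out]
  -- the sums
  let zC : CF (⊤ : Subgroup G) F := ⟨fun x : (⊤ : Subgroup G) => z x, un_class hz⟩
  have hfQ : Fintype (Quotient (pSubgroupSetoid p G)) := Fintype.ofFinite _
  have e3 : Lnum (⊤ : Subgroup G) ⊤ z c = Nat.card {φ : X // rX φ zC = c} := by
    unfold Lnum
    refine Nat.card_congr
      { toFun := fun φ => ⟨⟨φ.1, φ.2.1, φ.2.2.1⟩, ?_⟩
        invFun := fun φ => ⟨φ.1.1, φ.1.2.1, φ.1.2.2, ?_⟩
        left_inv := fun φ => rfl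
        right_inv := fun φ => rfl }
    · obtain ⟨x, hx⟩ := hne ⟨φ.1, φ.2.1, φ.2.2.1⟩
      have h4 := hBX2 ⟨φ.1, φ.2.1, φ.2.2.1⟩ zC.1 zC.2 x
      have h5 := φ.2.2.2 x
      exact mul_right_cancel₀ hx (h4.symm.trans h5)
    · intro x
      have h4 := hBX2 φ.1 zC.1 zC.2 x
      have h5 : BX φ.1 zC.1 = c := φ.2
      exact h4.trans (congrArg (fun t => t * φ.1.1 x) h5)
  have e4 : ∀ Q : P, Nw p red (Q.1.subgroupOf (Subgroup.normalizer (Q.1 : Set G)))
      (fun x => z x) c = Nat.card {χ : Y Q // rY Q χ zC = c} := by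
    intro Q
    unfold Nw
    exact Nat.card_congr
      { toFun := fun χ => ⟨⟨χ.1, χ.2.1⟩, χ.2.2⟩
        invFun := fun χ => ⟨χ.1.1, χ.1.2, χ.2⟩
        left_inv := fun χ => rfl
        right_inv := fun χ => rfl }
  have e5 : Lnum (⊤ : Subgroup G) ⊤ z c = ∑ᶠ d : Quotient (pSubgroupSetoid p G),
      Nw p red (d.out.1.subgroupOf (Subgroup.normalizer (d.out.1 : Set G))) (fun x => z x) c := by
    rw [e3, card_fib rX S hSX (fun β => β zC = c), finsum_eq_sum_of_fintype]
    have e6 : ∀ d : Quotient (pSubgroupSetoid p G),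
        Nw p red (d.out.1.subgroupOf (Subgroup.normalizer (d.out.1 : Set G))) (fun x => z x) c =
        ∑ β ∈ S, if β zC = c then Nat.card {χ : Y d.out // rY d.out χ = β} else 0 := by
      intro d
      rw [e4 d.out]
      exact card_fib (rY d.out) S (hSY d.out) (fun β => β zC = c)
    rw [Finset.sum_congr rfl fun d _ => e6 d, Finset.sum_comm]
    refine Finset.sum_congr rfl fun β hβ => ?_
    by_cases h : β zC = c
    · simp only [if_pos h]
      rw [key β hβ, finsum_eq_sum_of_fintype]
    · simp only [if_neg h]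
      rw [Finset.sum_const_zero]
  -- the action by conjugation
  let _act : MulAction G P :=
    { smul := fun g Q => ⟨Q.1.map (MulAut.conj g).toMonoidHom, Q.2.map _⟩
      one_smul := fun Q => by
        apply Subtype.ext
        change Q.1.map (MulAut.conj (1 : G)).toMonoidHom = Q.1
        ext x
        simp [Subgroup.mem_map]
      mul_smul := fun g h Q => by
        apply Subtype.ext
        change Q.1.map (MulAut.conj (g * h)).toMonoidHom =
          (Q.1.map (MulAut.conj h).toMonoidHom).map (MulAut.conj g).toMonoidHom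
        rw [Subgroup.map_map]
        congr 1
        ext x
        simp [mul_assoc] }
  have hsm : ∀ (g : G) (Q : P), (g • Q).1 = Q.1.map (MulAut.conj g).toMonoidHom := fun _ _ => rfl
  have h6 := orbit_sum (G := G) (Ω := P) (pSubgroupSetoid p G) (by
    intro Q R
    change (∃ g : G, R.1 = Q.1.map (MulAut.conj g).toMonoidHom) ↔ _
    constructor
    · rintro ⟨g, hg⟩
      exact ⟨g, Subtype.ext (by rw [hsm, hg])⟩
    · rintro ⟨g, hg⟩
      exact ⟨g, by rw [← hg, hsm]⟩)
    (fun Q => Nw p red (Q.1.subgroupOf (Subgroup.normalizer (Q.1 : Set G))) (fun x => z x) c) (by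
      rintro Q R ⟨g, hg⟩
      change Nw p red (Q.1.subgroupOf (Subgroup.normalizer (Q.1 : Set G))) (fun x => z x) c =
        Nw p red (R.1.subgroupOf (Subgroup.normalizer (R.1 : Set G))) (fun x => z x) c
      rw [hg]
      exact nw_conj hN p red hz c g Q.1)
  have hstab : ∀ Q : P, Nat.card (MulAction.stabilizer G Q) =
      Nat.card (Subgroup.normalizer (Q.1 : Set G)) := by
    intro Q
    refine Nat.card_congr (Equiv.subtypeEquivRight fun g => ?_)
    rw [MulAction.mem_stabilizer_iff, Subtype.ext_iff, hsm, Subgroup.mem_normalizer_iff]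
    constructor
    · intro h3 x
      constructor
      · intro hx
        have : g * x * g⁻¹ ∈ Q.1.map (MulAut.conj g).toMonoidHom := ⟨x, hx, rfl⟩
        rw [h3] at this
        exact this
      · intro hx
        have hx' : g * x * g⁻¹ ∈ Q.1 := hx
        rw [← h3] at hx'
        obtain ⟨y, hy, hyx⟩ := hx'
        have : g * y * g⁻¹ = g * x * g⁻¹ := hyx
        have : y = x := by simpa using this
        rwa [← this]
    · intro h3
      ext x
      constructor
      · rintro ⟨y, hy, rfl⟩
        exact (h3 y).mp hy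
      · intro hx
        refine ⟨g⁻¹ * x * g, (h3 _).mpr ?_, ?_⟩
        · have : g * (g⁻¹ * x * g) * g⁻¹ = x := by group
          rw [this]
          exact hx
        · change g * (g⁻¹ * x * g) * g⁻¹ = x
          group
  -- conclusion
  have h7 : Nat.card G * Lnum (⊤ : Subgroup G) ⊤ z c = ∑ Q : P,
      Nat.card (Subgroup.normalizer (Q.1 : Set G)) *
        Nw p red (Q.1.subgroupOf (Subgroup.normalizer (Q.1 : Set G))) (fun x => z x) c := by
    rw [e5, h6]
    exact Finset.sum_congr rfl fun Q _ => by rw [hstab Q]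
  have e8 : Lsum (⊤ : Subgroup G) ⊤ z c = ((Nat.card G * Lnum (⊤ : Subgroup G) ⊤ z c : ℕ) : ℤ) := by
    unfold Lsum
    rw [if_pos (sup_idem _), inf_idem, Subgroup.card_top]
    push_cast
    rfl
  have e9 : Wsum p red (⊤ : Subgroup G) ⊤ z c = ((∑ Q : P,
      Nat.card (Subgroup.normalizer (Q.1 : Set G)) *
        Nw p red (Q.1.subgroupOf (Subgroup.normalizer (Q.1 : Set G))) (fun x => z x) c : ℕ) : ℤ) := by
    unfold Wsum
    have : Fintype (Subgroup G) := Fintype.ofFinite _
    rw [finsum_eq_sum_of_fintype]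
    have e10 : ∀ Q : Subgroup G, (if IsPGroup p Q ∧ Q ≤ ⊤ ∧ (⊤ : Subgroup G) ⊔ Q = ⊤ then
        (Nat.card ↥((⊤ : Subgroup G) ⊓ Subgroup.normalizer (Q : Set G)) : ℤ) *
          Nw p red (Q.subgroupOf ((⊤ : Subgroup G) ⊓ Subgroup.normalizer (Q : Set G)))
            (fun x => z x) c else 0) =
        if IsPGroup p Q then (Nat.card ↥(Subgroup.normalizer (Q : Set G)) : ℤ) *
          Nw p red (Q.subgroupOf (Subgroup.normalizer (Q : Set G))) (fun x => z x) c else 0 := by
      intro Q
      rw [top_inf_eq]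
      by_cases h : IsPGroup p Q
      · rw [if_pos h, if_pos ⟨h, le_top, top_sup_eq _⟩]
      · rw [if_neg h, if_neg fun h' => h h'.1]
    rw [Finset.sum_congr rfl fun Q _ => e10 Q, ← Finset.sum_filter]
    push_cast
    exact Finset.sum_subtype (p := fun Q : Subgroup G => IsPGroup p Q)
      (Finset.univ.filter fun Q : Subgroup G => IsPGroup p Q) (by simp)
      (fun Q => (Nat.card ↥(Subgroup.normalizer (Q : Set G)) : ℤ) *
          Nw p red (Q.subgroupOf (Subgroup.normalizer (Q : Set G))) (fun x => z x) c)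
  rw [e8, e9, h7]

end Pool.Agent.Y48.NVB
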